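import Pool.Agent.H332.HT.Defs

set_option autoImplicit false

/-!
# CLA: all arcs `[a₀, t]` are good
-/

namespace Pool.Agent.H120.HT

open Pool.Agent.H332.HT

/-- sub-arcs of good arcs are good -/
theorem good_mono {K : Set V3} {q : ℝ → V2} {a b a' b' : ℝ} (h : Good K q a b) (ha : a ≤ a')
    (hb : b' ≤ b) : Good K q a' b' := by
  obtain ⟨d, hd⟩ := h
  exact ⟨d, fun t h1 h2 z hz => hd t (ha.trans h1) (h2.trans hb) z hz⟩

theorem clA (hP : S_P) (hgop : S_gop) (hgpt : S_gpt) (hQ : S_Q) (h3 : S_three) (h8 : S_H8)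
    (hc1 : S_ch1) (hc2 : S_ch2) : S_A := by
  intro K hK q hq hnf hnl a₀ hext t₀ hat hta hmid
  by_contra hng
  obtain ⟨-, -, -, -, hneg, -, -⟩ := hP K hK
  obtain ⟨ε₀, hε₀, hg₀⟩ := hgop K hK q hq a₀ a₀ le_rfl (hgpt K hK q hq a₀ (hnf a₀))
  obtain ⟨S, hS⟩ : ∃ S : Set ℝ, S = {t | a₀ ≤ t ∧ t ≤ t₀ ∧ ¬ Good K q a₀ t} := ⟨_, rfl⟩
  have hmem : ∀ t, t ∈ S ↔ a₀ ≤ t ∧ t ≤ t₀ ∧ ¬ Good K q a₀ t := by
    intro t
    rw [hS]
    exact Iff.rfl
  have hne : S.Nonempty := ⟨t₀, (hmem t₀).2 ⟨hat.le, le_rfl, hng⟩⟩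
  have hbd : BddBelow S := ⟨a₀, fun t ht => ((hmem t).1 ht).1⟩
  obtain ⟨b, hb⟩ : ∃ b, b = sInf S := ⟨_, rfl⟩
  have hb1 : a₀ < b := by
    have h1 : a₀ + ε₀ ≤ b := by
      rw [hb]
      refine le_csInf hne fun t ht => ?_
      obtain ⟨h2, h4, h5⟩ := (hmem t).1 ht
      by_contra hcon
      rw [not_le] at hcon
      exact h5 (good_mono hg₀ (by linarith) hcon.le)
    linarith
  have hb2 : b ≤ t₀ := by
    rw [hb]
    exact csInf_le hbd ((hmem t₀).2 ⟨hat.le, le_rfl, hng⟩)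
  have hgs : ∀ s, a₀ ≤ s → s < b → Good K q a₀ s := by
    intro s h1 h2
    by_contra hcon
    have h4 : b ≤ s := by
      rw [hb]
      exact csInf_le hbd ((hmem s).2 ⟨h1, by linarith, hcon⟩)
    linarith
  have hngb : ¬ Good K q a₀ b := by
    intro hg
    obtain ⟨ε, hε, hg2⟩ := hgop K hK q hq a₀ b hb1.le hg
    have h1 : b + ε ≤ b := by
      conv_rhs => rw [hb]
      refine le_csInf hne fun t ht => ?_
      obtain ⟨h2, h4, h5⟩ := (hmem t).1 ht
      by_contra hcon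
      rw [not_le] at hcon
      exact h5 (good_mono hg2 (by linarith) hcon.le)
    linarith
  have hbpi : b < a₀ + Real.pi := by linarith
  have hm1 : (1 / 2 : ℝ) • (q b - q a₀) ∈ IP K :=
    (hc2 K hK q hq a₀ b t₀).1 hb1 hb2 hta hmid
  have hm2 : (1 / 2 : ℝ) • (q a₀ - q b) ∈ IP K := by
    have h1 := hneg _ hm1
    have h2 : -((1 / 2 : ℝ) • (q b - q a₀)) = (1 / 2 : ℝ) • (q a₀ - q b) := by
      rw [← smul_neg, neg_sub]
    rw [h2] at h1
    exact h1
  by_cases hcase : ∀ c d, b < c → c < d → d < a₀ + Real.pi → Good K q c d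
  · -- three good arcs
    obtain ⟨ε, hε, hg⟩ := hgop K hK q hq b b le_rfl (hgpt K hK q hq b (hnf b))
    obtain ⟨s, hs1, hs2, hs3⟩ : ∃ s, a₀ < s ∧ s < b ∧ b - ε < s := by
      obtain ⟨s, h1, h2⟩ := exists_between (max_lt hb1 (by linarith : b - ε < b))
      exact ⟨s, (le_max_left _ _).trans_lt h1, h2, (le_max_right _ _).trans_lt h1⟩
    obtain ⟨c, hc3, hc4, hc5⟩ : ∃ c, b < c ∧ c < b + ε ∧ c < a₀ + Real.pi := by
      obtain ⟨c, h1, h2⟩ := exists_between (lt_min (by linarith : b < b + ε) hbpi)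
      exact ⟨c, h1, h2.trans_le (min_le_left _ _), h2.trans_le (min_le_right _ _)⟩
    obtain ⟨ε', hε', hg'⟩ := hgop K hK q hq a₀ s hs1.le (hgs s hs1.le hs2)
    obtain ⟨n, hn1, hn2, hn3⟩ : ∃ n, 0 < n ∧ n < ε' ∧ n < a₀ + Real.pi - c := by
      obtain ⟨n, h1, h2⟩ := exists_between (lt_min hε' (by linarith : 0 < a₀ + Real.pi - c))
      exact ⟨n, h1, h2.trans_le (min_le_left _ _), h2.trans_le (min_le_right _ _)⟩
    refine hnl (h3 K hK q hq (a₀ - n) s c (by linarith) (by linarith) (by linarith) ?_ ?_ ?_)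
    · exact good_mono hg' (by linarith) (by linarith)
    · exact good_mono hg (by linarith) (by linarith)
    · exact hcase c _ hc3 (by linarith) (by linarith)
  · -- two bad arcs
    push Not at hcase
    obtain ⟨c, d, hbc, hcd, hdpi, hngcd⟩ := hcase
    have hqd : q (d - Real.pi) = - q d := by
      have h1 := hq.anti (d - Real.pi)
      rw [sub_add_cancel] at h1
      rw [h1, neg_neg]
    have hm3 : (1 / 2 : ℝ) • (q c - q d) ∈ IP K := by
      have h1 := hc1 K hK q hq a₀ (d - Real.pi) c hext (by linarith) (by linarith) (by linarith)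
      rw [hqd] at h1
      have h2 : -q d + q c = q c - q d := by rw [neg_add_eq_sub]
      rw [h2] at h1
      exact h1
    obtain ⟨hB1, hB2⟩ := hQ K hK q hq a₀ b c d hb1 hbc hcd hdpi hm2 hm3 hngb hngcd
    have hopen : IsOpen (IP K) := isOpen_interior
    have hcont : Continuous fun n : ℝ => (1 / 2 : ℝ) • (q (a₀ - n) - q (b + n)) := by
      have hqc := hq.cont
      fun_prop
    have hpre : IsOpen ((fun n : ℝ => (1 / 2 : ℝ) • (q (a₀ - n) - q (b + n))) ⁻¹' IP K) :=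
      hopen.preimage hcont
    have h0 : (0 : ℝ) ∈ (fun n : ℝ => (1 / 2 : ℝ) • (q (a₀ - n) - q (b + n))) ⁻¹' IP K := by
      rw [Set.mem_preimage, sub_zero, add_zero]
      exact hm2
    obtain ⟨ε, hε, hball⟩ := Metric.isOpen_iff.1 hpre 0 h0
    obtain ⟨n, hn1, hn2, hn3, hn4⟩ : ∃ n, 0 < n ∧ n < ε ∧ n < c - b ∧ n < a₀ + Real.pi - d := by
      obtain ⟨n, h1, h2⟩ := exists_between
        (lt_min hε (lt_min (by linarith : 0 < c - b) (by linarith : 0 < a₀ + Real.pi - d)))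
      exact ⟨n, h1, h2.trans_le (min_le_left _ _),
        h2.trans_le ((min_le_right _ _).trans (min_le_left _ _)),
        h2.trans_le ((min_le_right _ _).trans (min_le_right _ _))⟩
    have hm4 : (1 / 2 : ℝ) • (q (a₀ - n) - q (b + n)) ∈ IP K := by
      have h1 : n ∈ Metric.ball (0 : ℝ) ε := by
        rw [Metric.mem_ball, Real.dist_eq, sub_zero, abs_of_pos hn1]
        exact hn2
      exact hball h1
    have hm5 : (1 / 2 : ℝ) • (q (a₀ - n) + q (b + n)) ∈ IP K :=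
      hc1 K hK q hq a₀ (a₀ - n) (b + n) hext (by linarith) (by linarith) (by linarith)
    have hlow : ∀ z : ℝ, (∃ t, a₀ ≤ t ∧ t ≤ b ∧ ((q t, z) : V3) ∈ K) →
        ∃ y : V2, y ∉ IP K ∧ 0 < det (q (a₀ - n)) y ∧ 0 < det y (q (b + n)) ∧
          ((y, z) : V3) ∈ K := by
      rintro z ⟨t, h1, h2, h4⟩
      exact ⟨q t, hq.nint t, hq.pos _ _ (by linarith) (by linarith),
        hq.pos _ _ (by linarith) (by linarith), h4⟩
    have hupp : ∀ z : ℝ, (∃ t, c ≤ t ∧ t ≤ d ∧ ((q t, z) : V3) ∈ K) →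
        ∃ y : V2, y ∉ IP K ∧ 0 < det (q (a₀ - n)) y ∧ 0 < det (q (b + n)) y ∧
          ((y, z) : V3) ∈ K := by
      rintro z ⟨t, h1, h2, h4⟩
      exact ⟨q t, hq.nint t, hq.pos _ _ (by linarith) (by linarith),
        hq.pos _ _ (by linarith) (by linarith), h4⟩
    exact hnl (h8 K hK (q (a₀ - n)) (q (b + n)) (hq.mem _) (hq.mem _) (hq.nint _) (hq.nint _)
      (hq.pos _ _ (by linarith) (by linarith)) hm4 hm5 (hlow 1 hB1.1) (hlow (-1) hB1.2)
      (hupp 1 hB2.1) (hupp (-1) hB2.2))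

end Pool.Agent.H120.HT
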